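import Mathlib
import Pool.Agent.R60.SC.Main

/-!
# The unrestricted red size of a quiver is invariant under mutation

Let `Q` be a quiver on a finite vertex set `V` (arrow multiplicities `arr i j`, no loops, no
oriented 2-cycles), `framed Q` its framed quiver on `V ⊕ V`, and `uRed Q` the maximum over all
finite sequences `w` of mutable vertices of the number of red vertices of the quiver obtained from
`framed Q` by mutating along `w`. We prove `uRed (μ_k Q) = uRed Q` for every quiver `Q` and every
vertex `k`, which answers Q1 positively.

The proof is complete: in particular sign coherence of c-vectors for all quivers is proved
(`Pool.Agent.R60.SC.sign_coherence`), and not assumed. Method: in the ring of twisted power series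
over `ℚ` (quantum torus at `v = 2`) there is a unique series `g` such that for every exponent
`n ≠ 0` the logarithm of the middle factor of `g` for the functional `⟨·, n⟩` has a prescribed
coefficient at `n`, which is nonzero only for multiples of unit vectors. By comparing `g`,
`E_k⁻¹ g` and `g E_k⁻¹` along the lines `n + ℕ e_k` one finds how `g` changes under mutation, and
that the middle factor for an integer vector `m` is trivial if and only if it is trivial for the
mutated data. It is trivial for positive `m`, and nontrivial if a coordinate of `m` vanishes. So
no coordinate of the image of a positive vector under mutations vanishes, and this gives sign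
coherence. Finally the frozen rows `j ≠ k` of the framed quivers of `Q` and `μ_k Q` agree, and they
determine all colours but one, which can be repaired by one mutation.
-/

namespace Pool.Agent.Results.MP_df9ae0_co.MutationInvariance

open Pool.Agent.R60.SC

/-- For every quiver `Q` on a finite vertex set, `uRed Q` is the maximum of the number of red
vertices over all words, and `uRed (μ_k Q) = uRed Q` for every vertex `k`. -/
theorem result : ∀ (V : Type) [Fintype V] [DecidableEq V] (Q : Quiv V),
    IsGreatest (Set.range fun w : List V => numRed w Q) (uRed Q) ∧
    ∀ k : V, uRed (Q.mut (fun _ => false) k) = uRed Q := by
  intro V _ _ Q
  exact ⟨uRed_isGreatest Q, fun k => uRed_mut V Q k⟩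

end Pool.Agent.Results.MP_df9ae0_co.MutationInvariance
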